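import Pool.Agent.Y939.BAB.Main

/-!
# Fano varieties over arbitrary fields are birationally unbounded in every dimension `d ≥ 2`

For every `d ≥ 2` the varieties of dimension `d` which are epsilon-klt Fano varieties for all
`ε < 1` at once (they can even be taken regular) do not form a bounded class, and not even a
birationally bounded class. So the statement of Borisov-Alexeev-Borisov over arbitrary fields fails
in every dimension `d ≥ 2` and for every `ε < 1` (for `ε ≥ 1` nothing would be left of it). The
starting result `BABFails` is the case `d = 2`, without the birational statement.

The definitions of epsilon-klt Fano varieties (over fields which are finitely generated over their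
prime field) and of bounded classes are in `Pool/Agent/H187R3/Defs.lean`, birational boundedness is
defined in `Pool/Agent/Y939/BAB/GenBound.lean`.

The example: characteristic 2, `ℓ = F_2(t_j : j ∈ J)`, where `J` consists of indices `e_0, ..., e_d`
and of indices `a_n, b_n` for `0 ≤ n < M`. On `ℓ[Y_0, ..., Y_d]` let `D` be the derivation which
kills the `Y_i` and such that `D e_i = Y_i²`, `D a_n = Y_0 σ_n`, `D b_n = Y_1 σ_n`, where
`σ_0 = Y_2`, `σ_{n+1} = Y_1 a_n + Y_0 b_n`. Then `D² = 0`, the ring of constants of `D` in `ℓ` is
`k = ℓ²`, and `X_M = Proj (ker D) = ℙ^d_ℓ / D` is a regular variety over `k = H⁰(X_M, O)` with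
canonical divisor `-(d - 1) H`, where `H` is the divisor of `Y_0`. In a birationally bounded family
the function fields can be generated over the ground fields by a bounded number of elements, in the
sense of Kaehler differentials, but the function field of `X_M` needs at least `2 M + 2 d`.
-/

set_option autoImplicit false

namespace Pool.Agent.Results.MP_4d8271_ag.EveryDimension

open Pool.Agent.H187R3 Pool.Agent.Y939.BAB

/-- In every dimension `d ≥ 2` the class of the varieties which are epsilon-klt Fano varieties for
all `ε < 1` is not birationally bounded, and for every `ε < 1` the class of the epsilon-klt Fano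
varieties of dimension `d` is not bounded. -/
theorem result (d : ℕ) (hd : 2 ≤ d) :
    ¬ IsBirationallyBounded (fun X => ∀ ε : ℚ, ε < 1 → IsEpsKltFano ε d X) ∧
      ∀ ε : ℚ, ε < 1 → ¬ IsBoundedClass (IsEpsKltFano ε d) :=
  ⟨not_birBounded d hd, fun ε hε => not_bounded d hd ε hε⟩

end Pool.Agent.Results.MP_4d8271_ag.EveryDimension
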